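import Pool.Agent.Q52.HE.Stm

/-!
# J4: there is no other line
-/

set_option autoImplicit false

namespace Pool.Agent.Q190.HE

open Finset Pool.Agent.Q52.HE

section

variable {K : Type} [Field K]

lemma cub_arrN (β γ g3 g2 g1 g0 : K) (v : Fin 4 → K) : cub (arrN β γ g3 g2 g1 g0) v =
    v 2 * v 0 ^ 2 - v 3 * v 1 ^ 2 + 2 * β * v 3 ^ 2 * v 0 + 2 * γ * v 2 ^ 2 * v 1 + g3 * v 2 ^ 3 +
      g2 * v 2 ^ 2 * v 3 + g1 * v 2 * v 3 ^ 2 + g0 * v 3 ^ 3 := by
  simp [cub, arrN, Fin.sum_univ_four]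
  ring

lemma others_eq (x : Fin 5 → K) : others x 0 = x 1 * x 2 * x 3 * x 4 ∧
    others x 1 = x 0 * x 2 * x 3 * x 4 ∧ others x 2 = x 0 * x 1 * x 3 * x 4 ∧
    others x 3 = x 0 * x 1 * x 2 * x 4 ∧ others x 4 = x 0 * x 1 * x 2 * x 3 := by
  unfold others
  refine ⟨?_, ?_, ?_, ?_, ?_⟩
  · rw [show (univ.erase (0 : Fin 5)) = {1, 2, 3, 4} by decide]
    simp [Finset.prod_insert]; ring
  · rw [show (univ.erase (1 : Fin 5)) = {0, 2, 3, 4} by decide]
    simp [Finset.prod_insert]; ring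
  · rw [show (univ.erase (2 : Fin 5)) = {0, 1, 3, 4} by decide]
    simp [Finset.prod_insert]; ring
  · rw [show (univ.erase (3 : Fin 5)) = {0, 1, 2, 4} by decide]
    simp [Finset.prod_insert]; ring
  · rw [show (univ.erase (4 : Fin 5)) = {0, 1, 2, 3} by decide]
    simp [Finset.prod_insert]; ring

lemma mul_others (x : Fin 5 → K) (i : Fin 5) : x i * others x i = pr x := by
  unfold others
  rw [Finset.mul_prod_erase univ x (mem_univ i), Fin.prod_univ_five]
  rfl

lemma pc_one (c d : Fin 5 → K) : pc c d 1 = ∑ i, c i * others d i := by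
  obtain ⟨h0, h1, h2, h3, h4⟩ := others_eq d
  rw [Fin.sum_univ_five, h0, h1, h2, h3, h4]
  simp [pc]
  ring

lemma pc_four (c d : Fin 5 → K) : pc c d 4 = ∑ i, d i * others c i := by
  obtain ⟨h0, h1, h2, h3, h4⟩ := others_eq c
  rw [Fin.sum_univ_five, h0, h1, h2, h3, h4]
  simp [pc]
  ring

lemma others_zero {x : Fin 5 → K} {i j : Fin 5} (hij : j ≠ i) (hx : x i = 0) : others x j = 0 :=
  Finset.prod_eq_zero (i := i) (by simp [hij.symm]) hx

lemma pc_one_of {c d : Fin 5 → K} {i : Fin 5} (h : d i = 0) : pc c d 1 = c i * others d i := by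
  rw [pc_one, Finset.sum_eq_single i]
  · intro j _ hj
    rw [others_zero hj h, mul_zero]
  · intro h; exact absurd (mem_univ i) h

lemma pc_four_of {c d : Fin 5 → K} {i : Fin 5} (h : c i = 0) : pc c d 4 = d i * others c i := by
  rw [pc_four, Finset.sum_eq_single i]
  · intro j _ hj
    rw [others_zero hj h, mul_zero]
  · intro h; exact absurd (mem_univ i) h

lemma others_sq (x : Fin 5 → K) (i : Fin 5) : others (x ^ 2) i = others x i ^ 2 := by
  unfold others
  rw [← Finset.prod_pow]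
  rfl

/-- the expansion of the product -/
lemma prod_pc (c d : Fin 5 → K) (X Y : K) : ∏ i, (d i * X + c i * Y) =
    pc c d 0 * X ^ 5 + pc c d 1 * X ^ 4 * Y + pc c d 2 * X ^ 3 * Y ^ 2 + pc c d 3 * X ^ 2 * Y ^ 3 +
      pc c d 4 * X * Y ^ 4 + pc c d 5 * Y ^ 5 := by
  rw [Fin.prod_univ_five]
  simp [pc]
  ring

lemma pc_zero (c d : Fin 5 → K) : pc c d 0 = pr d := rfl

lemma pc_five (c d : Fin 5 → K) : pc c d 5 = pr c := rfl

lemma pr_sq (x : Fin 5 → K) : pr (x ^ 2) = pr x ^ 2 := by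
  simp only [pr, Pi.pow_apply]
  ring

lemma delta (x y : Fin 5 → K) (z w : K) : ∏ i, (y i ^ 2 * z - x i ^ 2 * w) =
    pr y ^ 2 * z ^ 5 + z * w * (-pc (x ^ 2) (y ^ 2) 1 * z ^ 3 + pc (x ^ 2) (y ^ 2) 2 * z ^ 2 * w -
      pc (x ^ 2) (y ^ 2) 3 * z * w ^ 2 + pc (x ^ 2) (y ^ 2) 4 * w ^ 3) - pr x ^ 2 * w ^ 5 := by
  have h := prod_pc (x ^ 2) (y ^ 2) z (-w)
  rw [pc_zero, pc_five, pr_sq, pr_sq] at h
  have h2 : ∏ i, (y i ^ 2 * z - x i ^ 2 * w) = ∏ i, ((y ^ 2) i * z + (x ^ 2) i * -w) := by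
    apply Finset.prod_congr rfl
    intro i _
    rw [Pi.pow_apply, Pi.pow_apply]
    ring
  rw [h2, h]
  ring

/-- a cubic form with many zeros -/
lemma cubic_zero (h2 : (2 : K) ≠ 0) {A B C D : K}
    (h : ∀ α β : K, A * α ^ 3 + B * α ^ 2 * β + C * α * β ^ 2 + D * β ^ 3 = 0) :
    A = 0 ∧ B = 0 ∧ C = 0 ∧ D = 0 := by
  have h10 := h 1 0
  have h01 := h 0 1
  have h11 := h 1 1
  have h1m := h 1 (-1)
  have hA : A = 0 := by linear_combination h10
  have hD : D = 0 := by linear_combination h01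
  have hC : C = 0 := by
    have : (2 : K) * C = 0 := by linear_combination h11 + h1m - 2 * hA
    exact (mul_eq_zero.mp this).resolve_left h2
  refine ⟨hA, ?_, hC, hD⟩
  linear_combination h11 - hA - hC - hD

lemma poly_zero {n : ℕ} (d : Fin n → K) (S : Finset (Fin 5)) (r : Fin 5 → K)
    (hr : Set.InjOn r S) (hS : n ≤ S.card) (h : ∀ i ∈ S, ∑ k : Fin n, d k * r i ^ (k : ℕ) = 0) :
    d = 0 := by
  set P : Polynomial K := ∑ k : Fin n, Polynomial.C (d k) * Polynomial.X ^ (k : ℕ) with hP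
  have h1 : P = 0 := by
    refine Polynomial.eq_zero_of_degree_lt_of_eval_index_eq_zero (s := S) (v := r) hr ?_ ?_
    · refine lt_of_lt_of_le (Polynomial.degree_sum_fin_lt d) ?_
      exact_mod_cast hS
    · intro i hi
      rw [hP, Polynomial.eval_finsetSum, ← h i hi]
      apply Finset.sum_congr rfl
      intro k _
      simp
  funext i
  have h2 : P.coeff i = d i := by
    rw [hP, Polynomial.finsetSum_coeff, Finset.sum_eq_single i]
    · simp
    · intro b _ hb
      rw [Polynomial.coeff_C_mul, Polynomial.coeff_X_pow, if_neg, mul_zero]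
      intro h
      exact hb (Fin.ext h.symm)
    · intro h
      exact absurd (Finset.mem_univ i) h
  rw [← h2, h1]
  simp

/-- the form `Φ` -/
def Phi (x y : Fin 5 → K) (a b c d X Y : K) : K :=
  pr y * X ^ 5 + a * X ^ 4 * Y + b * X ^ 3 * Y ^ 2 + c * X ^ 2 * Y ^ 3 + d * X * Y ^ 4 + pr x * Y ^ 5

lemma Phi_mul {x y : Fin 5 → K} {a b c d : K}
    (h1 : a ^ 2 - 2 * pr y * b - pc (x ^ 2) (y ^ 2) 1 = 0)
    (h2 : 2 * a * c - b ^ 2 - 2 * pr y * d + pc (x ^ 2) (y ^ 2) 2 = 0)
    (h3 : c ^ 2 - 2 * b * d + 2 * pr x * a - pc (x ^ 2) (y ^ 2) 3 = 0)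
    (h4 : -d ^ 2 + 2 * pr x * c + pc (x ^ 2) (y ^ 2) 4 = 0) (X Y : K) :
    Phi x y a b c d X Y * Phi x y a b c d (-X) Y = -∏ i, (y i ^ 2 * X ^ 2 - x i ^ 2 * Y ^ 2) := by
  rw [delta]
  unfold Phi
  linear_combination (X ^ 2 * Y ^ 2) * (X ^ 6 * h1 + X ^ 4 * Y ^ 2 * h2 + X ^ 2 * Y ^ 4 * h3 +
    Y ^ 6 * h4)

/-- the signs, first step -/
lemma exists_signs {x y : Fin 5 → K} {a b c d : K}
    (h1 : a ^ 2 - 2 * pr y * b - pc (x ^ 2) (y ^ 2) 1 = 0)
    (h2 : 2 * a * c - b ^ 2 - 2 * pr y * d + pc (x ^ 2) (y ^ 2) 2 = 0)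
    (h3 : c ^ 2 - 2 * b * d + 2 * pr x * a - pc (x ^ 2) (y ^ 2) 3 = 0)
    (h4 : -d ^ 2 + 2 * pr x * c + pc (x ^ 2) (y ^ 2) 4 = 0) (i : Fin 5) :
    ∃ s : ℤˣ, Phi x y a b c d (-(((s : ℤ) : K) * x i)) (y i) = 0 ∧
      (y i = 0 → a = ((s : ℤ) : K) * x i * others y i) := by
  by_cases hy : y i = 0
  · have hpr : pr y = 0 := by rw [← mul_others y i, hy, zero_mul]
    have h5 : a ^ 2 = (x i * others y i) ^ 2 := by
      have h6 : pc (x ^ 2) (y ^ 2) 1 = (x ^ 2) i * others (y ^ 2) i :=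
        pc_one_of (by rw [Pi.pow_apply, hy]; ring)
      rw [others_sq, Pi.pow_apply] at h6
      rw [h6, hpr] at h1
      linear_combination h1
    rcases sq_eq_sq_iff_eq_or_eq_neg.mp h5 with h | h
    · refine ⟨1, ?_, fun _ => ?_⟩
      · unfold Phi; rw [hpr, hy]; ring
      · rw [h]; push_cast; ring
    · refine ⟨-1, ?_, fun _ => ?_⟩
      · unfold Phi; rw [hpr, hy]; ring
      · rw [h]; push_cast; ring
  · have h5 := Phi_mul h1 h2 h3 h4 (x i) (y i)
    rw [Finset.prod_eq_zero (mem_univ i) (by ring), neg_zero] at h5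
    rcases mul_eq_zero.mp h5 with h | h
    · refine ⟨-1, ?_, fun h => absurd h hy⟩
      have : -((((-1 : ℤˣ) : ℤ) : K) * x i) = x i := by push_cast; ring
      rw [this]; exact h
    · refine ⟨1, ?_, fun h => absurd h hy⟩
      have : -((((1 : ℤˣ) : ℤ) : K) * x i) = -x i := by push_cast; ring
      rw [this]; exact h

lemma sign_sq (s : ℤˣ) : (((s : ℤ) : K)) ^ 2 = 1 := by
  rcases Int.units_eq_one_or s with rfl | rfl <;> norm_num

/-- the coefficients -/
lemma coeffs {x y : Fin 5 → K} (hND : ND x y) {a b c d : K} {s : Fin 5 → ℤˣ}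
    (hs : ∀ i, Phi x y a b c d (-(((s i : ℤ) : K) * x i)) (y i) = 0)
    (ha : ∀ i, y i = 0 → a = ((s i : ℤ) : K) * x i * others y i) :
    a = pc (sg s x) y 1 ∧ b = pc (sg s x) y 2 ∧ c = pc (sg s x) y 3 ∧ d = pc (sg s x) y 4 ∧
      pr x = pr (sg s x) := by
  classical
  set e := sg s x with he
  have hei : ∀ i, e i = ((s i : ℤ) : K) * x i := fun i => rfl
  have he2 : ∀ i, e i ^ 2 = x i ^ 2 := by
    intro i
    rw [hei, mul_pow, sign_sq, one_mul]
  -- value at the roots
  have hval : ∀ i, (a - pc e y 1) * (-e i) ^ 4 * y i + (b - pc e y 2) * (-e i) ^ 3 * y i ^ 2 +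
      (c - pc e y 3) * (-e i) ^ 2 * y i ^ 3 + (d - pc e y 4) * (-e i) * y i ^ 4 +
      (pr x - pr e) * y i ^ 5 = 0 := by
    intro i
    have h1 := hs i
    have h2 := prod_pc e y (-e i) (y i)
    rw [Finset.prod_eq_zero (mem_univ i) (by ring), pc_zero, pc_five] at h2
    unfold Phi at h1
    rw [← hei] at h1
    linear_combination h1 + h2
  set S : Finset (Fin 5) := univ.filter fun i => y i ≠ 0 with hS
  have hinj : Set.InjOn (fun i => -e i / y i) S := by
    intro i hi j hj hij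
    rw [hS, coe_filter, Set.mem_ofPred_eq] at hi hj
    by_contra hne
    apply hND i j hne
    have h1 : -e i / y i = -e j / y j := hij
    rw [div_eq_div_iff hi.2 hj.2] at h1
    rw [← he2, ← he2]
    linear_combination (-(e i * y j) - e j * y i) * h1
  have hroot : ∀ i ∈ S, (pr x - pr e) + (d - pc e y 4) * (-e i / y i) +
      (c - pc e y 3) * (-e i / y i) ^ 2 + (b - pc e y 2) * (-e i / y i) ^ 3 +
      (a - pc e y 1) * (-e i / y i) ^ 4 = 0 := by
    intro i hi
    rw [hS, mem_filter] at hi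
    have hy := hi.2
    have h1 := hval i
    have h2 : y i ^ 5 ≠ 0 := pow_ne_zero _ hy
    apply (mul_eq_zero.mp (?_ : y i ^ 5 * _ = 0)).resolve_left h2
    rw [← h1]
    field_simp
    ring
  by_cases hall : ∀ i, y i ≠ 0
  · have hcard : 5 ≤ S.card := by
      have : S = univ := by
        rw [hS]
        exact Finset.filter_true_of_mem fun i _ => hall i
      rw [this]; simp
    have h0 := poly_zero ![pr x - pr e, d - pc e y 4, c - pc e y 3, b - pc e y 2, a - pc e y 1] S
      (fun i => -e i / y i) hinj hcard (by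
        intro i hi
        rw [Fin.sum_univ_five]
        simp only [Matrix.cons_val]
        have h1 := hroot i hi
        rw [← h1]
        norm_num)
    have e0 := congrFun h0 0
    have e1 := congrFun h0 1
    have e2 := congrFun h0 2
    have e3 := congrFun h0 3
    have e4 := congrFun h0 4
    simp only [Matrix.cons_val, Pi.zero_apply] at e0 e1 e2 e3 e4
    exact ⟨sub_eq_zero.mp e4, sub_eq_zero.mp e3, sub_eq_zero.mp e2, sub_eq_zero.mp e1,
      sub_eq_zero.mp e0⟩
  · push Not at hall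
    obtain ⟨i0, hi0⟩ := hall
    have ha' : a = pc e y 1 := by
      rw [pc_one_of hi0, ha i0 hi0, hei]
    have hcard : 4 ≤ S.card := by
      have : univ.erase i0 ⊆ S := by
        intro j hj
        rw [hS, mem_filter]
        refine ⟨mem_univ _, fun hyj => ?_⟩
        apply hND j i0 (ne_of_mem_erase hj)
        rw [hyj, hi0]; ring
      have h1 := card_le_card this
      rw [card_erase_of_mem (mem_univ _)] at h1
      simpa using h1
    have h0 := poly_zero ![pr x - pr e, d - pc e y 4, c - pc e y 3, b - pc e y 2] S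
      (fun i => -e i / y i) hinj hcard (by
        intro i hi
        rw [Fin.sum_univ_four]
        simp only [Matrix.cons_val]
        have h1 := hroot i hi
        rw [ha', sub_self, zero_mul, add_zero] at h1
        rw [← h1]
        norm_num)
    have e0 := congrFun h0 0
    have e1 := congrFun h0 1
    have e2 := congrFun h0 2
    have e3 := congrFun h0 3
    simp only [Matrix.cons_val, Pi.zero_apply] at e0 e1 e2 e3
    exact ⟨ha', sub_eq_zero.mp e3, sub_eq_zero.mp e2, sub_eq_zero.mp e1, sub_eq_zero.mp e0⟩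

/-- the signs have product one -/
lemma exists_Sg (h2 : (2 : K) ≠ 0) {x : Fin 5 → K} {s : Fin 5 → ℤˣ} (h : pr x = pr (sg s x)) :
    ∃ s' : Sg, sg s'.1 x = sg s x := by
  classical
  by_cases h0 : ∏ i, s i = 1
  · exact ⟨⟨s, h0⟩, rfl⟩
  · have h1 : ∏ i, s i = -1 := (Int.units_eq_one_or _).resolve_left h0
    have h3 : pr (sg s x) = (((∏ i, s i : ℤˣ) : ℤ) : K) * pr x := by
      rw [Fin.prod_univ_five]
      unfold pr sg
      push_cast
      ring
    rw [h1] at h3
    have h4 : pr x = 0 := by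
      have : (2 : K) * pr x = 0 := by
        rw [h3] at h
        push_cast at h
        linear_combination h
      exact (mul_eq_zero.mp this).resolve_left h2
    have h5 : ∏ i, x i = 0 := by
      rw [Fin.prod_univ_five]; exact h4
    obtain ⟨j, _, hj⟩ := Finset.prod_eq_zero_iff.mp h5
    refine ⟨⟨Function.update s j (-s j), ?_⟩, ?_⟩
    · rw [Finset.prod_update_of_mem (mem_univ j)]
      have h6 : s j * ∏ i ∈ univ \ {j}, s i = -1 := by
        rw [← h1, Finset.sdiff_singleton_eq_erase, Finset.mul_prod_erase univ s (mem_univ j)]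
      rw [neg_mul, h6, neg_neg]
    · funext i
      unfold sg
      by_cases hij : i = j
      · subst hij
        rw [hj, mul_zero, mul_zero]
      · show (((Function.update s j (-s j) i : ℤˣ) : ℤ) : K) * x i = _
        rw [Function.update_of_ne hij]


lemma span_eq {W : Submodule K (Fin 4 → K)} (hW : Module.finrank K W = 2) {u v : Fin 4 → K}
    (hu : u ∈ W) (hv : v ∈ W) (hli : LinearIndependent K ![u, v]) :
    W = Submodule.span K {u, v} := by
  symm
  apply Submodule.eq_of_le_of_finrank_eq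
  · rw [Submodule.span_le]
    rintro z (rfl | rfl)
    · exact hu
    · exact hv
  · rw [hW]
    have h1 := finrank_span_eq_card hli
    have h2 : Set.range ![u, v] = {u, v} := by simp [Set.pair_comm]
    rw [h2] at h1
    rw [h1]
    simp

/-- lines whose image in the `(z, w)` plane is everything -/
lemma case_two (h2 : (2 : K) ≠ 0) {x y : Fin 5 → K} (hND : ND x y) {W : Submodule K (Fin 4 → K)}
    (hW : W ∈ Lines (arrS x y)) {u v : Fin 4 → K} (hu : u ∈ W) (hv : v ∈ W) (hu2 : u 2 = 1)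
    (hu3 : u 3 = 0) (hv2 : v 2 = 0) (hv3 : v 3 = 1) : ∃ s : Sg, W = lineM (sg s.1 x) y := by
  have hf : ∀ z w : K, cub (arrS x y) (z • u + w • v) = 0 := fun z w =>
    hW.2 _ (W.add_mem (W.smul_mem z hu) (W.smul_mem w hv))
  set a := u 0 with ha
  set b := u 1 with hb
  set c := v 0 with hc
  set d := v 1 with hd
  obtain ⟨h1, h3, h4, h5⟩ := cubic_zero h2 (A := a ^ 2 - 2 * pr y * b - pc (x ^ 2) (y ^ 2) 1)
    (B := 2 * a * c - b ^ 2 - 2 * pr y * d + pc (x ^ 2) (y ^ 2) 2)
    (C := c ^ 2 - 2 * b * d + 2 * pr x * a - pc (x ^ 2) (y ^ 2) 3)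
    (D := -d ^ 2 + 2 * pr x * c + pc (x ^ 2) (y ^ 2) 4) (by
      intro z w
      have h := hf z w
      unfold arrS at h
      rw [cub_arrN] at h
      simp only [Pi.add_apply, Pi.smul_apply, smul_eq_mul, hu2, hu3, hv2, hv3] at h
      rw [← ha, ← hb, ← hc, ← hd] at h
      linear_combination h)
  choose s hs hsa using exists_signs h1 h3 h4 h5
  obtain ⟨e1, e2, e3, e4, e5⟩ := coeffs hND hs hsa
  obtain ⟨s', hs'⟩ := exists_Sg h2 e5
  refine ⟨s', ?_⟩
  rw [hs']
  unfold lineM
  rw [← e1, ← e2, ← e3, ← e4]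
  have hu' : u = ![a, b, 1, 0] := by
    funext i
    fin_cases i
    · rfl
    · rfl
    · exact hu2
    · exact hu3
  have hv' : v = ![c, d, 0, 1] := by
    funext i
    fin_cases i
    · rfl
    · rfl
    · exact hv2
    · exact hv3
  rw [← hu', ← hv']
  refine span_eq hW.1 hu hv ?_
  rw [LinearIndependent.pair_iff]
  intro p q hpq
  have g2 := congrFun hpq 2
  have g3 := congrFun hpq 3
  simp only [Pi.add_apply, Pi.smul_apply, smul_eq_mul, hu2, hu3, hv2, hv3, Pi.zero_apply] at g2 g3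
  exact ⟨by linear_combination g2, by linear_combination g3⟩

/-- lines in a plane `(z : w) = const` -/
lemma case_one (h2 : (2 : K) ≠ 0) {x y : Fin 5 → K} (hND : ND x y) {W : Submodule K (Fin 4 → K)}
    (hW : W ∈ Lines (arrS x y)) {v u : Fin 4 → K} (hv : v ∈ W) (hu : u ∈ W) (hv0 : v ≠ 0)
    (hv2 : v 2 = 0) (hv3 : v 3 = 0) (hu23 : u 2 ≠ 0 ∨ u 3 ≠ 0) :
    ∃ (i : Fin 5) (e : K), (e = 1 ∨ e = -1) ∧ W = lineL x y i e := by
  have hv01 : v 0 ≠ 0 ∨ v 1 ≠ 0 := by
    by_contra hcon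
    push Not at hcon
    apply hv0
    funext i
    fin_cases i
    · exact hcon.1
    · exact hcon.2
    · exact hv2
    · exact hv3
  have hf : ∀ (p q : Fin 4 → K), p ∈ W → q ∈ W → p 2 = 0 → p 3 = 0 →
      q 2 * p 0 ^ 2 - q 3 * p 1 ^ 2 = 0 ∧
      (p 0 * (q 2 * q 0 + pr x * q 3 ^ 2) - p 1 * (q 3 * q 1 + pr y * q 2 ^ 2) = 0) ∧
      q 2 * q 0 ^ 2 - q 3 * q 1 ^ 2 + 2 * pr x * q 3 ^ 2 * q 0 - 2 * pr y * q 2 ^ 2 * q 1 -
        pc (x ^ 2) (y ^ 2) 1 * q 2 ^ 3 + pc (x ^ 2) (y ^ 2) 2 * q 2 ^ 2 * q 3 -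
        pc (x ^ 2) (y ^ 2) 3 * q 2 * q 3 ^ 2 + pc (x ^ 2) (y ^ 2) 4 * q 3 ^ 3 = 0 := by
    intro p q hp hq hp2 hp3
    obtain ⟨-, h3, h4, h5⟩ := cubic_zero h2 (A := 0) (B := q 2 * p 0 ^ 2 - q 3 * p 1 ^ 2)
      (C := 2 * (p 0 * (q 2 * q 0 + pr x * q 3 ^ 2) - p 1 * (q 3 * q 1 + pr y * q 2 ^ 2)))
      (D := q 2 * q 0 ^ 2 - q 3 * q 1 ^ 2 + 2 * pr x * q 3 ^ 2 * q 0 - 2 * pr y * q 2 ^ 2 * q 1 -
        pc (x ^ 2) (y ^ 2) 1 * q 2 ^ 3 + pc (x ^ 2) (y ^ 2) 2 * q 2 ^ 2 * q 3 -
        pc (x ^ 2) (y ^ 2) 3 * q 2 * q 3 ^ 2 + pc (x ^ 2) (y ^ 2) 4 * q 3 ^ 3) (by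
        intro α β
        have h := hW.2 _ (W.add_mem (W.smul_mem α hp) (W.smul_mem β hq))
        unfold arrS at h
        rw [cub_arrN] at h
        simp only [Pi.add_apply, Pi.smul_apply, smul_eq_mul, hp2, hp3] at h
        linear_combination h)
    exact ⟨h3, (mul_eq_zero.mp h4).resolve_left h2, h5⟩
  obtain ⟨g1, g2, g3⟩ := hf v u hv hu hv2 hv3
  -- `(u 2, u 3)` is proportional to `(v 1 ^ 2, v 0 ^ 2)`
  obtain ⟨k, hk0, hk2, hk3⟩ : ∃ k : K, k ≠ 0 ∧ u 2 = k * v 1 ^ 2 ∧ u 3 = k * v 0 ^ 2 := by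
    by_cases h0 : v 0 = 0
    · have h1 : v 1 ≠ 0 := hv01.resolve_left (not_not.mpr h0)
      refine ⟨u 2 / v 1 ^ 2, ?_, by field_simp, ?_⟩
      · rw [h0] at g1
        have h3 : u 3 * v 1 ^ 2 = 0 := by linear_combination -g1
        have h4 : u 3 = 0 := (mul_eq_zero.mp h3).resolve_right (pow_ne_zero 2 h1)
        have h5 : u 2 ≠ 0 := hu23.resolve_right (not_not.mpr h4)
        exact div_ne_zero h5 (pow_ne_zero 2 h1)
      · rw [h0] at g1
        have h3 : u 3 * v 1 ^ 2 = 0 := by linear_combination -g1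
        have h4 : u 3 = 0 := (mul_eq_zero.mp h3).resolve_right (pow_ne_zero 2 h1)
        rw [h4, h0]; ring
    · refine ⟨u 3 / v 0 ^ 2, ?_, ?_, by field_simp⟩
      · intro h
        have h3 : u 3 = 0 := by
          rcases div_eq_zero_iff.mp h with h | h
          · exact h
          · exact absurd h (pow_ne_zero 2 h0)
        rw [h3] at g1
        have h4 : u 2 * v 0 ^ 2 = 0 := by linear_combination g1
        have h5 : u 2 = 0 := (mul_eq_zero.mp h4).resolve_right (pow_ne_zero 2 h0)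
        rcases hu23 with h | h
        · exact h h5
        · exact h h3
      · field_simp
        linear_combination g1
  -- the discriminant
  have hdel : ∏ i, (y i ^ 2 * (u 2) - x i ^ 2 * (u 3)) = 0 := by
    rw [delta]
    -- `m U² - l V² = 0`
    have hUV : u 3 * (u 2 * u 0 + pr x * u 3 ^ 2) ^ 2 - u 2 * (u 3 * u 1 + pr y * u 2 ^ 2) ^ 2 = 0 := by
      have h3 : v 0 * (u 2 * u 0 + pr x * u 3 ^ 2) = v 1 * (u 3 * u 1 + pr y * u 2 ^ 2) := by
        linear_combination g2
      set U := u 2 * u 0 + pr x * u 3 ^ 2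
      set V := u 3 * u 1 + pr y * u 2 ^ 2
      rw [hk2, hk3]
      linear_combination k * (v 0 * U + v 1 * V) * h3
    linear_combination (u 2 * u 3) * g3 - hUV
  obtain ⟨i, -, hi⟩ := Finset.prod_eq_zero_iff.mp hdel
  rw [hk2, hk3] at hi
  have hi' : (y i * v 1) ^ 2 = (x i * v 0) ^ 2 := by
    have h3 : k * ((y i * v 1) ^ 2 - (x i * v 0) ^ 2) = 0 := by linear_combination hi
    exact sub_eq_zero.mp ((mul_eq_zero.mp h3).resolve_left hk0)
  have hxy : x i ≠ 0 ∨ y i ≠ 0 := by
    by_contra hcon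
    push Not at hcon
    obtain ⟨j, hj⟩ : ∃ j : Fin 5, i ≠ j := ⟨i + 1, by fin_cases i <;> decide⟩
    apply hND i j hj
    rw [hcon.1, hcon.2]; ring
  obtain ⟨e, he, hev⟩ : ∃ e : K, (e = 1 ∨ e = -1) ∧ y i * v 1 = -e * x i * v 0 := by
    rcases sq_eq_sq_iff_eq_or_eq_neg.mp hi' with h | h
    · exact ⟨-1, Or.inr rfl, by rw [h]; ring⟩
    · exact ⟨1, Or.inl rfl, by rw [h]; ring⟩
  have he2 : e ^ 2 = 1 := by rcases he with rfl | rfl <;> norm_num
  have he0 : e ≠ 0 := by rintro rfl; norm_num at he2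
  -- the first vector
  obtain ⟨κ, hκ0, hκ1, hκ2⟩ : ∃ κ : K, κ ≠ 0 ∧ κ * v 0 = y i ∧ κ * v 1 = -e * x i := by
    by_cases h0 : v 0 = 0
    · have h1 : v 1 ≠ 0 := hv01.resolve_left (not_not.mpr h0)
      have h3 : y i = 0 := by
        rw [h0, mul_zero] at hev
        exact (mul_eq_zero.mp hev).resolve_right h1
      have h4 : x i ≠ 0 := hxy.resolve_right (not_not.mpr h3)
      refine ⟨-e * x i / v 1, ?_, by rw [h0, h3, mul_zero], by field_simp⟩
      exact div_ne_zero (mul_ne_zero (neg_ne_zero.mpr he0) h4) h1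
    · refine ⟨y i / v 0, ?_, by field_simp, ?_⟩
      · intro h
        have h3 : y i = 0 := by
          rcases div_eq_zero_iff.mp h with h | h
          · exact h
          · exact absurd h h0
        have h4 : x i ≠ 0 := hxy.resolve_right (not_not.mpr h3)
        rw [h3, zero_mul] at hev
        have h5 : e * x i * v 0 = 0 := by linear_combination hev
        exact mul_ne_zero (mul_ne_zero he0 h4) h0 h5
      · field_simp
        linear_combination hev
  set p : Fin 4 → K := κ • v with hp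
  have hpW : p ∈ W := W.smul_mem κ hv
  have hp0 : p 0 = y i := hκ1
  have hp1 : p 1 = -e * x i := hκ2
  have hp2 : p 2 = 0 := by rw [hp, Pi.smul_apply, hv2, smul_zero]
  have hp3 : p 3 = 0 := by rw [hp, Pi.smul_apply, hv3, smul_zero]
  -- the second vector
  set q : Fin 4 → K := (κ ^ 2 / k) • u with hq
  have hqW : q ∈ W := W.smul_mem _ hu
  have hq2 : q 2 = x i ^ 2 := by
    rw [hq, Pi.smul_apply, smul_eq_mul, hk2]
    have : κ ^ 2 / k * (k * v 1 ^ 2) = (κ * v 1) ^ 2 := by field_simp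
    rw [this, hκ2]
    linear_combination x i ^ 2 * he2
  have hq3 : q 3 = y i ^ 2 := by
    rw [hq, Pi.smul_apply, smul_eq_mul, hk3]
    have : κ ^ 2 / k * (k * v 0 ^ 2) = (κ * v 0) ^ 2 := by field_simp
    rw [this, hκ1]
  obtain ⟨-, f2, f3⟩ := hf p q hpW hqW hp2 hp3
  rw [hp0, hp1, hq2, hq3] at f2
  rw [hq2, hq3] at f3
  set s1 := q 0 with hs1
  set t1 := q 1 with ht1
  set ox := others x i with hox
  set oy := others y i with hoy
  have hprx : pr x = x i * ox := (mul_others x i).symm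
  have hpry : pr y = y i * oy := (mul_others y i).symm
  -- it suffices to find a sign `e'` and `μ`
  have fin : ∀ e' : K, (e' = 1 ∨ e' = -1) → ∀ ν μ : K, ν ≠ 0 → ν * y i = y i →
      ν * (-e' * x i) = -e * x i →
      s1 = -e' * oy * x i ^ 3 + μ * y i → t1 = -e' * ox * y i ^ 3 + μ * (-e * x i) →
      ∃ (i : Fin 5) (e : K), (e = 1 ∨ e = -1) ∧ W = lineL x y i e := by
    intro e' he' ν μ hν0 hν1 hν2 hs ht
    refine ⟨i, e', he', ?_⟩
    unfold lineL
    have m1 : (![y i, -e' * x i, 0, 0] : Fin 4 → K) ∈ W := by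
      have : (![y i, -e' * x i, 0, 0] : Fin 4 → K) = ν⁻¹ • p := by
        funext j
        fin_cases j
        · show y i = ν⁻¹ * p 0
          rw [hp0]
          field_simp
          linear_combination hν1
        · show -e' * x i = ν⁻¹ * p 1
          rw [hp1, ← hν2, inv_mul_cancel_left₀ hν0]
        · show (0 : K) = ν⁻¹ * p 2
          rw [hp2, mul_zero]
        · show (0 : K) = ν⁻¹ * p 3
          rw [hp3, mul_zero]
      rw [this]
      exact W.smul_mem _ hpW
    have m2 : (![-e' * others y i * x i ^ 3, -e' * others x i * y i ^ 3, x i ^ 2, y i ^ 2] :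
        Fin 4 → K) ∈ W := by
      have : (![-e' * others y i * x i ^ 3, -e' * others x i * y i ^ 3, x i ^ 2, y i ^ 2] :
          Fin 4 → K) = q - μ • p := by
        funext j
        fin_cases j
        · show -e' * oy * x i ^ 3 = s1 - μ * p 0
          rw [hp0, hs]; ring
        · show -e' * ox * y i ^ 3 = t1 - μ * p 1
          rw [hp1, ht]; ring
        · show x i ^ 2 = q 2 - μ * p 2
          rw [hp2, hq2]; ring
        · show y i ^ 2 = q 3 - μ * p 3
          rw [hp3, hq3]; ring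
      rw [this]
      exact W.sub_mem hqW (W.smul_mem _ hpW)
    refine span_eq hW.1 m1 m2 ?_
    have he'0 : e' ≠ 0 := by rcases he' with rfl | rfl <;> norm_num
    rw [LinearIndependent.pair_iff]
    intro α β hαβ
    have g0 := congrFun hαβ 0
    have g1' := congrFun hαβ 1
    have g2' := congrFun hαβ 2
    have g3' := congrFun hαβ 3
    have g0' : α * y i + β * (-e' * others y i * x i ^ 3) = 0 := g0
    have g1'' : α * (-e' * x i) + β * (-e' * others x i * y i ^ 3) = 0 := g1'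
    have g2'' : α * 0 + β * x i ^ 2 = 0 := g2'
    have g3'' : α * 0 + β * y i ^ 2 = 0 := g3'
    have hβ : β = 0 := by
      rcases hxy with h | h
      · have : β * x i ^ 2 = 0 := by linear_combination g2''
        exact (mul_eq_zero.mp this).resolve_right (pow_ne_zero 2 h)
      · have : β * y i ^ 2 = 0 := by linear_combination g3''
        exact (mul_eq_zero.mp this).resolve_right (pow_ne_zero 2 h)
    refine ⟨?_, hβ⟩
    rw [hβ] at g0' g1''
    rcases hxy with h | h
    · have : α * (e' * x i) = 0 := by linear_combination -g1''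
      exact (mul_eq_zero.mp this).resolve_right (mul_ne_zero he'0 h)
    · have : α * y i = 0 := by linear_combination g0'
      exact (mul_eq_zero.mp this).resolve_right h
  by_cases hx : x i = 0
  · -- `x i = 0`
    have hy : y i ≠ 0 := hxy.resolve_left (not_not.mpr hx)
    have h4 : pc (x ^ 2) (y ^ 2) 4 = y i ^ 2 * ox ^ 2 := by
      rw [pc_four_of (i := i) (by rw [Pi.pow_apply, hx]; ring), others_sq]
      rfl
    rw [h4, hprx, hx] at f3
    have h5 : t1 ^ 2 = (ox * y i ^ 3) ^ 2 := by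
      have h6 : y i ^ 2 * (t1 ^ 2 - (ox * y i ^ 3) ^ 2) = 0 := by linear_combination -f3
      exact sub_eq_zero.mp ((mul_eq_zero.mp h6).resolve_left (pow_ne_zero 2 hy))
    rcases sq_eq_sq_iff_eq_or_eq_neg.mp h5 with h | h
    · refine fin (-1) (Or.inr rfl) 1 (s1 / y i) one_ne_zero (by ring) (by rw [hx]; ring) ?_ ?_
      · rw [hx]; field_simp; ring
      · rw [hx, h]; ring
    · refine fin 1 (Or.inl rfl) 1 (s1 / y i) one_ne_zero (by ring) (by rw [hx]; ring) ?_ ?_
      · rw [hx]; field_simp; ring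
      · rw [hx, h]; ring
  · by_cases hy : y i = 0
    · -- `y i = 0`
      have h4 : pc (x ^ 2) (y ^ 2) 1 = x i ^ 2 * oy ^ 2 := by
        rw [pc_one_of (i := i) (by rw [Pi.pow_apply, hy]; ring), others_sq]
        rfl
      rw [h4, hpry, hy] at f3
      have h5 : s1 ^ 2 = (oy * x i ^ 3) ^ 2 := by
        have h6 : x i ^ 2 * (s1 ^ 2 - (oy * x i ^ 3) ^ 2) = 0 := by linear_combination f3
        exact sub_eq_zero.mp ((mul_eq_zero.mp h6).resolve_left (pow_ne_zero 2 hx))
      rcases sq_eq_sq_iff_eq_or_eq_neg.mp h5 with h | h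
      · refine fin (-1) (Or.inr rfl) (-e) (-t1 / (e * x i)) (neg_ne_zero.mpr he0)
          (by rw [hy]; ring) (by ring) ?_ ?_
        · rw [hy, h]; ring
        · rw [hy]; field_simp; ring
      · refine fin 1 (Or.inl rfl) e (-t1 / (e * x i)) he0 (by rw [hy]; ring) (by ring) ?_ ?_
        · rw [hy, h]; ring
        · rw [hy]; field_simp; ring
    · -- the main case
      rw [hprx, hpry] at f2
      have h5 : x i * s1 + e * y i * t1 = -ox * y i ^ 4 - e * oy * x i ^ 4 := by
        have h6 : (x i * y i) * (x i * s1 + e * y i * t1 - (-ox * y i ^ 4 - e * oy * x i ^ 4)) = 0 := by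
          linear_combination f2
        exact sub_eq_zero.mp ((mul_eq_zero.mp h6).resolve_left (mul_ne_zero hx hy))
      refine fin e he 1 ((s1 + e * oy * x i ^ 3) / y i) one_ne_zero (by ring) (by ring) ?_ ?_
      · field_simp; ring
      · field_simp
        linear_combination e * h5 + (-(t1 * y i)) * he2

/-- J4 -/
theorem all : S_all := by
  intro K _ h2 x y hND W hW
  by_cases h0 : ∀ p ∈ W, p 2 = 0 ∧ p 3 = 0
  · left
    have hle : W ≤ ell := by
      intro p hp
      unfold ell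
      rw [Submodule.mem_span_pair]
      refine ⟨p 0, p 1, ?_⟩
      funext j
      fin_cases j
      · show p 0 * 1 + p 1 * 0 = p 0; ring
      · show p 0 * 0 + p 1 * 1 = p 1; ring
      · show p 0 * 0 + p 1 * 0 = p 2; rw [(h0 p hp).1]; ring
      · show p 0 * 0 + p 1 * 0 = p 3; rw [(h0 p hp).2]; ring
    have hfin : Module.finrank K (ell : Submodule K (Fin 4 → K)) = 2 := by
      unfold ell
      have hli : LinearIndependent K ![(![1, 0, 0, 0] : Fin 4 → K), ![0, 1, 0, 0]] := by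
        rw [LinearIndependent.pair_iff]
        intro α β h
        have g0 : α * 1 + β * 0 = 0 := congrFun h 0
        have g1 : α * 0 + β * 1 = 0 := congrFun h 1
        exact ⟨by linear_combination g0, by linear_combination g1⟩
      have h1 := finrank_span_eq_card hli
      have h3 : Set.range ![(![1, 0, 0, 0] : Fin 4 → K), ![0, 1, 0, 0]] =
          {![1, 0, 0, 0], ![0, 1, 0, 0]} := by simp [Set.pair_comm]
      rw [h3] at h1
      rw [h1]; simp
    exact Submodule.eq_of_le_of_finrank_eq hle (by rw [hW.1, hfin])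
  · right
    push Not at h0
    obtain ⟨u, hu, hu23⟩ := h0
    by_cases h1 : ∃ v ∈ W, v ≠ 0 ∧ v 2 = 0 ∧ v 3 = 0
    · left
      obtain ⟨v, hv, hv0, hv2, hv3⟩ := h1
      refine case_one h2 hND hW hv hu hv0 hv2 hv3 ?_
      by_cases h : u 2 = 0
      · exact Or.inr (hu23 h)
      · exact Or.inl h
    · right
      push Not at h1
      let π : W →ₗ[K] (Fin 2 → K) :=
        { toFun := fun p => ![(p : Fin 4 → K) 2, (p : Fin 4 → K) 3]
          map_add' := fun p q => by
            funext j; fin_cases j <;> rfl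
          map_smul' := fun c p => by
            funext j; fin_cases j <;> rfl }
      have hπ : Function.Injective π := by
        rw [← LinearMap.ker_eq_bot, LinearMap.ker_eq_bot']
        intro p hp
        have g0 : (p : Fin 4 → K) 2 = 0 := congrFun hp 0
        have g1 : (p : Fin 4 → K) 3 = 0 := congrFun hp 1
        by_contra hne
        exact h1 p p.2 (fun h => hne (Subtype.ext h)) g0 g1
      have hsur : Function.Surjective π := by
        rw [← LinearMap.injective_iff_surjective_of_finrank_eq_finrank]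
        · exact hπ
        · rw [hW.1]; simp
      obtain ⟨a, ha⟩ := hsur ![1, 0]
      obtain ⟨b, hb⟩ := hsur ![0, 1]
      exact case_two h2 hND hW a.2 b.2 (congrFun ha 0) (congrFun ha 1) (congrFun hb 0)
        (congrFun hb 1)

end

end Pool.Agent.Q190.HE

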